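import Pool.Agent.helper1.T1N.SpecN

/-!
# MP_07c750, project T1, block N, row NTY
-/

set_option autoImplicit false

open MeasureTheory Finset

namespace Pool.Agent.T1N

theorem NTY_den {X u : ℝ} (hX : |X| ≤ 1 / 4) (hu : |u| ≤ 2) : 1 / 2 ≤ 1 - X * u ∧ 1 - X * u ≤ 3 / 2 := by
  have h1 : |X * u| ≤ 1 / 2 := by
    rw [abs_mul]
    have h2 := abs_nonneg X
    have h3 := abs_nonneg u
    nlinarith
  have h2 := abs_le.1 h1
  constructor <;> linarith [h2.1, h2.2]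

theorem NTY_proof : NTY_stmt := by
  intro X0 hX0
  refine ⟨fun u hu => ⟨?_, fun ξ hξ => ?_⟩, fun u u' hu hu' => ?_⟩
  · obtain ⟨h1, h2⟩ := NTY_den hX0 hu
    have h0 : 0 < 1 - X0 * u := by linarith
    rw [abs_div, abs_of_pos h0, div_le_iff₀ h0]
    linarith
  · obtain ⟨h1, h2⟩ := NTY_den hX0 hu
    obtain ⟨h3, h4⟩ := NTY_den hξ hu
    have h0 : 0 < 1 - X0 * u := by linarith
    have h5 : 0 < 1 - (X0 + ξ) * u := by linarith
    have e1 : u / (1 - (X0 + ξ) * u) - u / (1 - X0 * u) - ξ * (u / (1 - X0 * u)) ^ 2 =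
        ξ ^ 2 * u ^ 3 / ((1 - X0 * u) ^ 2 * (1 - (X0 + ξ) * u)) := by
      obtain ⟨a, ha⟩ : ∃ a : ℝ, a = 1 - X0 * u := ⟨_, rfl⟩
      have hb : 1 - (X0 + ξ) * u = a - ξ * u := by rw [ha]; ring
      rw [hb] at h5 ⊢
      rw [← ha] at h0 ⊢
      have n0 := h0.ne'
      have n5 := h5.ne'
      rw [div_sub_div _ _ n5 n0, div_pow, ← mul_div_assoc, div_sub_div _ _ (mul_ne_zero n5 n0) (pow_ne_zero 2 n0),
        div_eq_div_iff (mul_ne_zero (mul_ne_zero n5 n0) (pow_ne_zero 2 n0)) (mul_ne_zero (pow_ne_zero 2 n0) n5)]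
      ring
    have h6 : 0 < (1 - X0 * u) ^ 2 * (1 - (X0 + ξ) * u) := by positivity
    rw [e1, abs_div, abs_of_pos h6, div_le_iff₀ h6, abs_mul, abs_of_nonneg (sq_nonneg ξ), abs_pow]
    have h7 : |u| ^ 3 ≤ 8 := by
      have := pow_le_pow_left₀ (abs_nonneg u) hu 3
      linarith
    have h8 : 1 / 8 ≤ (1 - X0 * u) ^ 2 * (1 - (X0 + ξ) * u) := by
      have h9 : (1 / 2 : ℝ) ^ 2 ≤ (1 - X0 * u) ^ 2 := pow_le_pow_left₀ (by norm_num) h1 2
      have h10 : (1 / 2 : ℝ) ^ 2 * (1 / 2) ≤ (1 - X0 * u) ^ 2 * (1 - (X0 + ξ) * u) :=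
        mul_le_mul h9 h3 (by norm_num) (by positivity)
      linarith
    have h11 : ξ ^ 2 * |u| ^ 3 ≤ ξ ^ 2 * 8 := mul_le_mul_of_nonneg_left h7 (sq_nonneg ξ)
    have h12 : ξ ^ 2 * (1 / 8) ≤ ξ ^ 2 * ((1 - X0 * u) ^ 2 * (1 - (X0 + ξ) * u)) :=
      mul_le_mul_of_nonneg_left h8 (sq_nonneg ξ)
    linarith
  · obtain ⟨h1, h2⟩ := NTY_den hX0 hu
    obtain ⟨h3, h4⟩ := NTY_den hX0 hu'
    have h0 : 0 < 1 - X0 * u := by linarith
    have h5 : 0 < 1 - X0 * u' := by linarith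
    have e1 : u / (1 - X0 * u) - u' / (1 - X0 * u') = (u - u') / ((1 - X0 * u) * (1 - X0 * u')) := by
      rw [div_sub_div _ _ h0.ne' h5.ne']
      congr 1
      ring
    have h6 : 0 < (1 - X0 * u) * (1 - X0 * u') := by positivity
    rw [e1, abs_div, abs_of_pos h6, le_div_iff₀ h6]
    have h7 : (1 - X0 * u) * (1 - X0 * u') ≤ (3 / 2) * (3 / 2) := mul_le_mul h2 h4 h5.le (by norm_num)
    have h8 := abs_nonneg (u - u')
    nlinarith

end Pool.Agent.T1N
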